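import Mathlib

/-!
Core of the theorem on t-embeddings of `A(κ)`: in a homogeneous compactum with a pi-base
indexed by a regular uncountable well-order, not every point carries a fan.
-/

set_option autoImplicit false

namespace Pool.Agent.Helper90.TE

open Set Topology

universe u v

variable {T : Type u} [LinearOrder T] {K : Type v}

/-- `V` is small at stage `ξ`: each of the first members of the pi-base contains an earlier
member disjoint from `V`. -/
def Small (O : T → Set K) (ξ : T) (V : Set K) : Prop :=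
  ∀ i, i < ξ → ∃ j, j < ξ ∧ O j ⊆ O i ∧ Disjoint (O j) V

/-- Points with a small neighbourhood at stage `ξ`. -/
def Om [TopologicalSpace K] (O : T → Set K) (ξ : T) : Set K :=
  {y | ∃ V : Set K, IsOpen V ∧ y ∈ V ∧ Small O ξ V}

theorem isOpen_Om [TopologicalSpace K] (O : T → Set K) (ξ : T) : IsOpen (Om O ξ) := by
  rw [isOpen_iff_forall_mem_open]
  rintro y ⟨V, hV, hy, hs⟩
  exact ⟨V, fun z hz => ⟨V, hV, hz, hs⟩, hV, hy⟩

theorem finset_small {ι : Type*} (O : T → Set K) (i0 : T) (ξ : ι → T)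
    (V : ι → Set K) (s : Finset ι) (h : ∀ k ∈ s, i0 < ξ k ∧ Small O (ξ k) (V k)) :
    ∃ j, (∀ k ∈ s, Disjoint (O j) (V k)) ∧ (j = i0 ∨ ∃ k ∈ s, j < ξ k) := by
  classical
  induction s using Finset.induction_on_max_value ξ with
  | empty => exact ⟨i0, by simp, Or.inl rfl⟩
  | insert a s ha hmax ih =>
    obtain ⟨j, hj, hj'⟩ := ih (fun k hk => h k (Finset.mem_insert_of_mem hk))
    have hja : j < ξ a := by
      rcases hj' with rfl | ⟨k, hk, hlt⟩
      · exact (h a (Finset.mem_insert_self a s)).1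
      · exact lt_of_lt_of_le hlt (hmax k hk)
    obtain ⟨j2, hj2, hsub, hdis⟩ := (h a (Finset.mem_insert_self a s)).2 j hja
    refine ⟨j2, ?_, Or.inr ⟨a, Finset.mem_insert_self a s, hj2⟩⟩
    intro k hk
    rcases Finset.mem_insert.mp hk with rfl | hk
    · exact hdis
    · exact (hj k hk).mono_left hsub

/-- There is a point outside all the sets `Om O ξ`, `i0 < ξ`. -/
theorem exists_big [TopologicalSpace K] [CompactSpace K] (O : T → Set K)
    (hOn : ∀ i, (O i).Nonempty) (i0 : T) : ∃ w : K, ∀ ξ, i0 < ξ → w ∉ Om O ξ := by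
  by_contra hcon
  push Not at hcon
  choose ξ hξ hw using hcon
  choose V hVo hwV hVs using hw
  obtain ⟨s, hs⟩ := isCompact_univ.elim_finite_subcover V hVo
    (fun w _ => mem_iUnion.mpr ⟨w, hwV w⟩)
  obtain ⟨j, hj, -⟩ := finset_small O i0 ξ V s (fun k _ => ⟨hξ k, hVs k⟩)
  obtain ⟨y, hy⟩ := hOn j
  obtain ⟨k, hk, hyk⟩ := mem_iUnion₂.mp (hs (mem_univ y))
  exact (Set.disjoint_left.mp (hj k hk)) hy hyk

/-- A point-finite family of open sets is locally finite on a dense open set. -/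
theorem refine_ptfinite {A : Type*} [TopologicalSpace K] [BaireSpace K] (U : A → Set K)
    (hU : ∀ t, IsOpen (U t)) (hf : ∀ y, {t | y ∈ U t}.Finite) (V : Set K) (hV : IsOpen V)
    (hn : V.Nonempty) :
    ∃ W : Set K, W ⊆ V ∧ IsOpen W ∧ W.Nonempty ∧ {t | (U t ∩ W).Nonempty}.Finite := by
  classical
  let C : ℕ → Set K := fun n => {y | {t | y ∈ U t}.ncard ≤ n}
  have hCcl : ∀ n, IsClosed (C n) := by
    intro n
    rw [← isOpen_compl_iff, isOpen_iff_forall_mem_open]
    intro y hy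
    refine ⟨⋂ t ∈ {t | y ∈ U t}, U t, ?_, ?_, ?_⟩
    · intro z hz
      simp only [C, mem_compl_iff, Set.mem_ofPred_eq, not_le] at hy ⊢
      refine lt_of_lt_of_le hy (ncard_le_ncard ?_ (hf z))
      intro t ht
      exact mem_iInter₂.mp hz t ht
    · exact (hf y).isOpen_biInter (fun t _ => hU t)
    · exact mem_iInter₂.mpr (fun t ht => ht)
  have hCu : ⋃ n, C n = univ := by
    refine eq_univ_of_forall (fun y => mem_iUnion.mpr ⟨{t | y ∈ U t}.ncard, ?_⟩)
    show {t | y ∈ U t}.ncard ≤ {t | y ∈ U t}.ncard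
    exact le_rfl
  have hd := dense_iUnion_interior_of_closed hCcl hCu
  obtain ⟨y0, hy0V, hy0⟩ := hd.inter_open_nonempty V hV hn
  obtain ⟨n, hn0⟩ := mem_iUnion.mp hy0
  -- choose a point of maximal order in `V ∩ interior (C n)`
  let S : Set ℕ := {m | ∃ y ∈ V ∩ interior (C n), {t | y ∈ U t}.ncard = m}
  have hSb : ∀ m ∈ S, m ≤ n := by
    rintro m ⟨y, ⟨-, hy⟩, rfl⟩
    exact (interior_subset hy : y ∈ C n)
  have hSn : S.Nonempty := ⟨_, y0, ⟨hy0V, hn0⟩, rfl⟩
  obtain ⟨m, hmS, hmax⟩ : ∃ m ∈ S, ∀ k ∈ S, k ≤ m := by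
    have hfin : S.Finite := (Set.finite_Iic n).subset (fun m hm => hSb m hm)
    obtain ⟨m, hm⟩ := hfin.exists_maximal hSn
    exact ⟨m, hm.1, fun k hk => by
      by_contra hlt
      exact hlt (hm.2 hk (le_of_lt (not_le.mp hlt)))⟩
  obtain ⟨y, ⟨hyV, hyC⟩, hym⟩ := hmS
  refine ⟨(V ∩ interior (C n)) ∩ ⋂ t ∈ {t | y ∈ U t}, U t, ?_, ?_, ?_, ?_⟩
  · exact fun z hz => hz.1.1
  · exact (hV.inter isOpen_interior).inter ((hf y).isOpen_biInter (fun t _ => hU t))
  · exact ⟨y, ⟨hyV, hyC⟩, mem_iInter₂.mpr (fun t ht => ht)⟩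
  · refine (hf y).subset ?_
    rintro t ⟨z, hzt, ⟨hzV, hzI⟩⟩
    have hsub : {t | y ∈ U t} ⊆ {t | z ∈ U t} := fun t ht => mem_iInter₂.mp hzI t ht
    have hle : {t | z ∈ U t}.ncard ≤ m := hmax _ ⟨z, hzV, rfl⟩
    have heq : {t | y ∈ U t} = {t | z ∈ U t} :=
      Set.eq_of_subset_of_ncard_le hsub (by rw [hym]; exact hle) (hf z)
    rw [heq]
    exact hzt

open Classical in
/-- One step of the construction: a zero set meeting `F`, inside `Om O ξ` if possible. -/
noncomputable def stepZ [TopologicalSpace K] (O : T → Set K) (ξ : T) (F : Set K) : Set K :=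
  if h : ∃ f : K → ℝ, Continuous f ∧ (∃ p ∈ F, f p = 0) ∧ (∀ y, f y = 0 → y ∈ Om O ξ) then
    {y | h.choose y = 0} else univ

theorem stepZ_spec [TopologicalSpace K] (O : T → Set K) (ξ : T) (F : Set K) :
    ∃ f : K → ℝ, Continuous f ∧ stepZ O ξ F = {y | f y = 0} := by
  classical
  by_cases h : ∃ f : K → ℝ, Continuous f ∧ (∃ p ∈ F, f p = 0) ∧ (∀ y, f y = 0 → y ∈ Om O ξ)
  · exact ⟨h.choose, h.choose_spec.1, by simp only [stepZ, dif_pos h]⟩
  · exact ⟨fun _ => 0, continuous_const, by simp only [stepZ, dif_neg h]; simp⟩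

theorem stepZ_nonempty [TopologicalSpace K] (O : T → Set K) (ξ : T) (F : Set K)
    (hF : F.Nonempty) : (F ∩ stepZ O ξ F).Nonempty := by
  classical
  by_cases h : ∃ f : K → ℝ, Continuous f ∧ (∃ p ∈ F, f p = 0) ∧ (∀ y, f y = 0 → y ∈ Om O ξ)
  · obtain ⟨p, hp, hp0⟩ := h.choose_spec.2.1
    exact ⟨p, hp, by simp only [stepZ, dif_pos h]; exact hp0⟩
  · simp only [stepZ, dif_neg h, inter_univ]
    exact hF

theorem stepZ_subset [TopologicalSpace K] [NormalSpace K] [T1Space K] (O : T → Set K) (ξ : T)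
    (F : Set K) (hF : (F ∩ Om O ξ).Nonempty) : stepZ O ξ F ⊆ Om O ξ := by
  classical
  have h : ∃ f : K → ℝ, Continuous f ∧ (∃ p ∈ F, f p = 0) ∧
      (∀ y, f y = 0 → y ∈ Om O ξ) := by
    obtain ⟨p, hpF, hpO⟩ := hF
    obtain ⟨f, hf0, hf1, -⟩ := exists_continuous_zero_one_of_isClosed
      (isClosed_singleton (x := p)) (isOpen_Om O ξ).isClosed_compl
      (by
        rw [Set.disjoint_left]
        intro y hy hy'
        rw [mem_singleton_iff] at hy
        subst hy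
        exact hy' hpO)
    refine ⟨f, f.continuous, ⟨p, hpF, hf0 (mem_singleton p)⟩, fun y hy => ?_⟩
    by_contra hcon
    have := hf1 hcon
    simp only [Pi.one_apply] at this
    rw [this] at hy
    exact one_ne_zero hy
  intro y hy
  simp only [stepZ, dif_pos h] at hy
  exact h.choose_spec.2.2 y hy

variable [WellFoundedLT T]

/-- The sequence of zero sets. -/
noncomputable def ZZ [TopologicalSpace K] (O : T → Set K) : T → Set K :=
  (wellFounded_lt (α := T)).fix (fun ξ rec => stepZ O ξ (⋂ (r : T) (h : r < ξ), rec r h))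

theorem ZZ_eq [TopologicalSpace K] (O : T → Set K) (ξ : T) :
    ZZ O ξ = stepZ O ξ (⋂ (r : T) (_ : r < ξ), ZZ O r) := by
  unfold ZZ
  rw [WellFounded.fix_eq]

theorem isClosed_ZZ [TopologicalSpace K] (O : T → Set K) (ξ : T) : IsClosed (ZZ O ξ) := by
  rw [ZZ_eq]
  obtain ⟨f, hf, he⟩ := stepZ_spec O ξ (⋂ (r : T) (_ : r < ξ), ZZ O r)
  rw [he]
  exact isClosed_eq hf continuous_const

theorem FF_nonempty [TopologicalSpace K] [CompactSpace K] [Nonempty K] (O : T → Set K)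
    (ξ : T) : (⋂ (r : T) (_ : r < ξ), ZZ O r).Nonempty := by
  induction ξ using WellFoundedLT.induction with
  | ind ξ ih =>
    by_cases hne : Nonempty {r // r < ξ}
    · let G : {r // r < ξ} → Set K := fun r => (⋂ (s : T) (_ : s < r.1), ZZ O s) ∩ ZZ O r.1
      have hGn : ∀ r, (G r).Nonempty := by
        intro r
        have := stepZ_nonempty O r.1 _ (ih r.1 r.2)
        rw [← ZZ_eq] at this
        exact this
      have hGc : ∀ r, IsClosed (G r) := fun r =>
        (isClosed_iInter fun s => isClosed_iInter fun _ => isClosed_ZZ O s).inter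
          (isClosed_ZZ O r.1)
      have hGd : Directed (· ⊇ ·) G := by
        have hanti : ∀ a b : {r // r < ξ}, a.1 ≤ b.1 → G b ⊆ G a := by
          intro a b hab y hy
          rcases hab.lt_or_eq with hlt | heq
          · refine ⟨mem_iInter₂.mpr fun s hs => ?_, ?_⟩
            · exact mem_iInter₂.mp hy.1 s (lt_trans hs hlt)
            · exact mem_iInter₂.mp hy.1 a.1 hlt
          · have : a = b := Subtype.ext heq
            rw [this]
            exact hy
        intro a b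
        rcases le_total a.1 b.1 with h | h
        · exact ⟨b, hanti a b h, subset_rfl⟩
        · exact ⟨a, subset_rfl, hanti b a h⟩
      obtain ⟨y, hy⟩ := IsCompact.nonempty_iInter_of_directed_nonempty_isCompact_isClosed G hGd
        hGn (fun r => (hGc r).isCompact) hGc
      exact ⟨y, mem_iInter₂.mpr fun r hr => (mem_iInter.mp hy ⟨r, hr⟩).2⟩
    · obtain ⟨y⟩ := ‹Nonempty K›
      refine ⟨y, mem_iInter₂.mpr fun r hr => ?_⟩
      exact (hne ⟨⟨r, hr⟩⟩).elim

theorem all_nonempty [TopologicalSpace K] [CompactSpace K] [Nonempty K] [Nonempty T]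
    (O : T → Set K) : (⋂ (r : T), ZZ O r).Nonempty := by
  let G : T → Set K := fun r => (⋂ (s : T) (_ : s < r), ZZ O s) ∩ ZZ O r
  have hGn : ∀ r, (G r).Nonempty := by
    intro r
    have := stepZ_nonempty O r _ (FF_nonempty O r)
    rw [← ZZ_eq] at this
    exact this
  have hGc : ∀ r, IsClosed (G r) := fun r =>
    (isClosed_iInter fun s => isClosed_iInter fun _ => isClosed_ZZ O s).inter
      (isClosed_ZZ O r)
  have hGd : Directed (· ⊇ ·) G := by
    have hanti : ∀ a b : T, a ≤ b → G b ⊆ G a := by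
      intro a b hab y hy
      rcases hab.lt_or_eq with hlt | heq
      · refine ⟨mem_iInter₂.mpr fun s hs => ?_, ?_⟩
        · exact mem_iInter₂.mp hy.1 s (lt_trans hs hlt)
        · exact mem_iInter₂.mp hy.1 a hlt
      · rw [heq]
        exact hy
    intro a b
    rcases le_total a b with h | h
    · exact ⟨b, hanti a b h, subset_rfl⟩
    · exact ⟨a, subset_rfl, hanti b a h⟩
  obtain ⟨y, hy⟩ := IsCompact.nonempty_iInter_of_directed_nonempty_isCompact_isClosed G hGd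
    hGn (fun r => (hGc r).isCompact) hGc
  exact ⟨y, mem_iInter.mpr fun r => (mem_iInter.mp hy r).2⟩

/-- Only countably many members of a fan at `z` avoid a zero set through `z`. -/
theorem countable_avoid [TopologicalSpace K] (O : T → Set K) (r : T) (z : K)
    (hz : z ∈ ZZ O r) {A : Type*} (x : A → K)
    (hx : ∀ G : Set K, IsOpen G → z ∈ G → {t | x t ∉ G}.Finite) :
    {t | x t ∉ ZZ O r}.Countable := by
  obtain ⟨f, hf, he⟩ := stepZ_spec O r (⋂ (s : T) (_ : s < r), ZZ O s)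
  rw [← ZZ_eq] at he
  rw [he] at hz ⊢
  have hsub : {t | x t ∉ {y | f y = 0}} ⊆ ⋃ n : ℕ, {t | x t ∉ {y | |f y| < 1 / ((n : ℝ) + 1)}} := by
    intro t ht
    have hpos : 0 < |f (x t)| := abs_pos.mpr ht
    obtain ⟨n, hn⟩ := exists_nat_one_div_lt hpos
    refine mem_iUnion.mpr ⟨n, ?_⟩
    simp only [Set.mem_ofPred_eq, not_lt]
    exact le_of_lt hn
  refine Countable.mono hsub (countable_iUnion fun n => (hx _ ?_ ?_).countable)
  · exact isOpen_lt (continuous_abs.comp hf) continuous_const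
  · simp only [Set.mem_ofPred_eq] at hz ⊢
    rw [hz, abs_zero]
    positivity

/-- The core theorem. -/
theorem no_fans [Nonempty T]
    (hc : ∀ S : Set T, S.Countable → ∃ x, ∀ y ∈ S, y < x)
    (hcl : ∀ (g : T → T) (a : T), ∃ ξ, a < ξ ∧ ∀ i, i < ξ → g i < ξ)
    [TopologicalSpace K] [CompactSpace K] [T2Space K] [Nonempty K]
    (hom : ∀ x y : K, ∃ h : K ≃ₜ K, h x = y)
    (O : T → Set K) (hOo : ∀ i, IsOpen (O i)) (hOn : ∀ i, (O i).Nonempty)
    (hOπ : ∀ V : Set K, IsOpen V → V.Nonempty → ∃ i, O i ⊆ V)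
    (fan : ∀ z : K, ∃ (x : T → K) (U : T → Set K), (∀ t, IsOpen (U t)) ∧ (∀ t, x t ∈ U t) ∧
      (∀ y, {t | y ∈ U t}.Finite) ∧
      (∀ G : Set K, IsOpen G → z ∈ G → {t | x t ∉ G}.Finite)) : False := by
  classical
  obtain ⟨i0⟩ := ‹Nonempty T›
  obtain ⟨w, hw⟩ := exists_big O hOn i0
  have : Nonempty T := ⟨i0⟩
  obtain ⟨z, hz⟩ := all_nonempty (T := T) O
  have hz' : ∀ r, z ∈ ZZ O r := fun r => mem_iInter.mp hz r
  obtain ⟨h, hh⟩ := hom z w
  obtain ⟨x, U, hUo, hxU, hUf, hx⟩ := fan z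
  -- closing-off functions
  have hα : ∀ r, ∃ a, ∀ t, x t ∉ ZZ O r → t < a := by
    intro r
    obtain ⟨a, ha⟩ := hc _ (countable_avoid O r z (hz' r) x hx)
    exact ⟨a, fun t ht => ha t ht⟩
  choose α hα using hα
  have hcb : ∀ i, ∃ c b, O c ⊆ O i ∧ ∀ t, (U t ∩ O c).Nonempty → t < b := by
    intro i
    obtain ⟨W, hWi, hWo, hWn, hWf⟩ := refine_ptfinite U hUo hUf (O i) (hOo i) (hOn i)
    obtain ⟨c, hcW⟩ := hOπ W hWo hWn
    obtain ⟨b, hb⟩ := hc _ hWf.countable
    refine ⟨c, b, hcW.trans hWi, fun t ht => hb t ?_⟩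
    obtain ⟨y, hy1, hy2⟩ := ht
    exact ⟨y, hy1, hcW hy2⟩
  choose c b hcO hb using hcb
  have hf : ∀ i, ∃ j, O j ⊆ h ⁻¹' (O i) := fun i =>
    hOπ _ ((hOo i).preimage h.continuous) (by
      obtain ⟨y, hy⟩ := hOn i
      exact ⟨h.symm y, by simpa using hy⟩)
  choose f hf using hf
  have hg : ∀ i, ∃ j, O j ⊆ h '' (O i) := fun i =>
    hOπ _ (h.isOpenMap _ (hOo i)) ((hOn i).image h)
  choose g hg using hg
  obtain ⟨ξ, hξ0, hξ⟩ := hcl
    (fun i => max (α i) (max (c i) (max (b i) (max (f i) (g i))))) i0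
  have hξα : ∀ i, i < ξ → α i < ξ := fun i hi =>
    lt_of_le_of_lt (le_max_left _ _) (hξ i hi)
  have hξ1 : ∀ i, i < ξ → max (c i) (max (b i) (max (f i) (g i))) < ξ := fun i hi =>
    lt_of_le_of_lt (le_max_right _ _) (hξ i hi)
  have hξc : ∀ i, i < ξ → c i < ξ := fun i hi => lt_of_le_of_lt (le_max_left _ _) (hξ1 i hi)
  have hξ2 : ∀ i, i < ξ → max (b i) (max (f i) (g i)) < ξ := fun i hi =>
    lt_of_le_of_lt (le_max_right _ _) (hξ1 i hi)
  have hξb : ∀ i, i < ξ → b i < ξ := fun i hi => lt_of_le_of_lt (le_max_left _ _) (hξ2 i hi)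
  have hξ3 : ∀ i, i < ξ → max (f i) (g i) < ξ := fun i hi =>
    lt_of_le_of_lt (le_max_right _ _) (hξ2 i hi)
  have hξf : ∀ i, i < ξ → f i < ξ := fun i hi => lt_of_le_of_lt (le_max_left _ _) (hξ3 i hi)
  have hξg : ∀ i, i < ξ → g i < ξ := fun i hi => lt_of_le_of_lt (le_max_right _ _) (hξ3 i hi)
  -- `x ξ` lies in all earlier zero sets
  have hxF : x ξ ∈ ⋂ (r : T) (_ : r < ξ), ZZ O r := by
    refine mem_iInter₂.mpr fun r hr => ?_
    by_contra hcon
    exact absurd (hα r ξ hcon) (not_lt.mpr (le_of_lt (hξα r hr)))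
  have hxO : x ξ ∈ Om O ξ := by
    refine ⟨U ξ, hUo ξ, hxU ξ, fun i hi => ⟨c i, hξc i hi, hcO i, ?_⟩⟩
    rw [Set.disjoint_left]
    intro y hy1 hy2
    exact absurd (hb i ξ ⟨y, hy2, hy1⟩) (not_lt.mpr (le_of_lt (hξb i hi)))
  have hzO : z ∈ Om O ξ := by
    have h1 := stepZ_subset O ξ _ ⟨x ξ, hxF, hxO⟩
    rw [← ZZ_eq] at h1
    exact h1 (hz' ξ)
  -- transport to `w`
  refine hw ξ hξ0 ?_
  obtain ⟨V, hVo, hzV, hVs⟩ := hzO
  refine ⟨h '' V, h.isOpenMap _ hVo, ⟨z, hzV, hh⟩, fun i hi => ?_⟩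
  obtain ⟨j', hj', hsub, hdis⟩ := hVs (f i) (hξf i hi)
  refine ⟨g j', hξg j' hj', ?_, ?_⟩
  · intro y hy
    obtain ⟨y', hy', rfl⟩ := hg j' hy
    exact hf i (hsub hy')
  · rw [Set.disjoint_left]
    intro y hy hy2
    obtain ⟨y', hy', rfl⟩ := hg j' hy
    obtain ⟨y'', hy'', he⟩ := hy2
    have : y'' = y' := h.injective he
    subst this
    exact (Set.disjoint_left.mp hdis) hy' hy''

end Pool.Agent.Helper90.TE
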