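import Mathlib
import Pool.Agent.Helper90.TE.Core

/-!
From a t-embedding of `A(κ)` to fans, and the order facts on `λ.ord.ToType`.
-/

set_option autoImplicit false

namespace Pool.Agent.Helper90.TE

open Set Topology Cardinal Filter

universe u v

/-- The function space `C_p(X)`: continuous real functions with the topology of pointwise
convergence, that is, the subspace topology from `X → ℝ`. -/
abbrev Cp (X : Type v) [TopologicalSpace X] : Type v := {f : X → ℝ // Continuous f}

/-- The subspace `Y` of `X` is t-embedded in `X`: some extender `C_p(Y) → C_p(X)` is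
continuous. -/
def TEmb {X : Type v} [TopologicalSpace X] (Y : Set X) : Prop :=
  ∃ φ : Cp Y → Cp X, Continuous φ ∧ ∀ (f : Cp Y) (y : Y), (φ f).1 (y : X) = f.1 y

/-- There is a t-embedding of `Z` in `X`. -/
def HasTEmb (Z : Type u) [TopologicalSpace Z] (X : Type v) [TopologicalSpace X] : Prop :=
  ∃ e : Z → X, IsEmbedding e ∧ TEmb (range e)

section order

variable {c : Cardinal.{u}}

theorem exists_lt_of_card_lt (hr : c.IsRegular) (S : Set c.ord.ToType) (hS : #S < c) :
    ∃ x, ∀ y ∈ S, y < x := by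
  rw [← not_isCofinal_iff]
  intro h
  have h1 := Order.cof_le h
  rw [Ordinal.cof_toType, hr.cof_ord] at h1
  exact absurd hS (not_lt.mpr h1)

theorem exists_lt_of_countable (hr : c.IsRegular) (hc : ℵ₀ < c) (S : Set c.ord.ToType)
    (hS : S.Countable) : ∃ x, ∀ y ∈ S, y < x :=
  exists_lt_of_card_lt hr S (lt_of_le_of_lt (le_aleph0_iff_set_countable.mpr hS) hc)

theorem exists_closure (hr : c.IsRegular) (hc : ℵ₀ < c) (g : c.ord.ToType → c.ord.ToType)
    (a : c.ord.ToType) : ∃ ξ, a < ξ ∧ ∀ i, i < ξ → g i < ξ := by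
  classical
  have hB : ∀ x : c.ord.ToType, ∃ b, x < b ∧ ∀ i, i < x → g i < b := by
    intro x
    obtain ⟨b, hb⟩ := exists_lt_of_card_lt hr (insert x (g '' (Iio x))) (by
      refine lt_of_le_of_lt (Cardinal.mk_insert_le) ?_
      have h1 : #(g '' (Iio x)) < c := lt_of_le_of_lt Cardinal.mk_image_le (by
        have h2 := Cardinal.mk_Iio_lt x (by simp)
        rwa [mk_ord_toType] at h2)
      exact Cardinal.add_lt_of_lt hr.aleph0_le h1 (lt_of_lt_of_le one_lt_aleph0 hr.aleph0_le))
    exact ⟨b, hb x (mem_insert _ _), fun i hi =>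
      hb _ (mem_insert_of_mem _ (mem_image_of_mem g hi))⟩
  choose b hb hbg using hB
  let x : ℕ → c.ord.ToType := fun n => b^[n] a
  have hx : ∀ n, x (n + 1) = b (x n) := fun n => Function.iterate_succ_apply' b n a
  obtain ⟨y, hy⟩ := exists_lt_of_countable hr hc (range x) (countable_range x)
  let S : Set c.ord.ToType := {y | ∀ n, x n ≤ y}
  have hS : S.Nonempty := ⟨y, fun n => le_of_lt (hy _ (mem_range_self n))⟩
  obtain ⟨ξ, hξS, hξ⟩ := (wellFounded_lt (α := c.ord.ToType)).has_min S hS
  have hlt : ∀ n, x n < ξ := fun n =>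
    lt_of_lt_of_le (by rw [hx]; exact hb _) (hξS (n + 1))
  refine ⟨ξ, hlt 0, fun i hi => ?_⟩
  have : ∃ n, i < x n := by
    by_contra hcon
    push Not at hcon
    exact hξ i hcon hi
  obtain ⟨n, hn⟩ := this
  calc g i < b (x n) := hbg _ _ hn
    _ = x (n + 1) := (hx n).symm
    _ < ξ := hlt _

end order

/-- A fan at the point `z`, indexed by `A`. -/
def Fan (A : Type u) {K : Type v} [TopologicalSpace K] (z : K) : Prop :=
  ∃ (x : A → K) (U : A → Set K), (∀ t, IsOpen (U t)) ∧ (∀ t, x t ∈ U t) ∧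
      (∀ y, {t | y ∈ U t}.Finite) ∧
      (∀ G : Set K, IsOpen G → z ∈ G → {t | x t ∉ G}.Finite)

theorem Fan.map {A : Type u} {K : Type v} [TopologicalSpace K] {z w : K} (h : K ≃ₜ K)
    (hzw : h z = w) (hf : Fan A z) : Fan A w := by
  obtain ⟨x, U, h1, h2, h3, h4⟩ := hf
  refine ⟨fun t => h (x t), fun t => h.symm ⁻¹' (U t), fun t => (h1 t).preimage h.symm.continuous,
    fun t => by simpa using h2 t, fun y => h3 (h.symm y), fun G hG hz => ?_⟩
  have := h4 (h ⁻¹' G) (hG.preimage h.continuous) (by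
    show h z ∈ G
    rw [hzw]; exact hz)
  exact this

theorem Fan.comap {A B : Type u} {K : Type v} [TopologicalSpace K] {z : K} (j : B ↪ A)
    (hf : Fan A z) : Fan B z := by
  obtain ⟨x, U, h1, h2, h3, h4⟩ := hf
  exact ⟨fun t => x (j t), fun t => U (j t), fun t => h1 _, fun t => h2 _,
    fun y => (h3 y).preimage j.injective.injOn,
    fun G hG hz => (h4 G hG hz).preimage j.injective.injOn⟩

open Classical in
theorem continuous_single {ι : Type u} [TopologicalSpace ι] [DiscreteTopology ι] (i : ι) :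
    Continuous (fun x : OnePoint ι => if x = (i : OnePoint ι) then (1 : ℝ) else 0) := by
  have hcl : IsClopen {x : OnePoint ι | x = (i : OnePoint ι)} := by
    refine ⟨?_, ?_⟩
    · exact isClosed_singleton
    · have : {x : OnePoint ι | x = (i : OnePoint ι)} = ((↑) : ι → OnePoint ι) '' {i} := by
        ext x
        simp
      rw [this]
      exact OnePoint.isOpen_image_coe.mpr (isOpen_discrete _)
  exact Continuous.if (fun a ha => by
    rw [hcl.frontier_eq] at ha
    exact ha.elim) continuous_const continuous_const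

open Classical in
theorem fan_of_hasTEmb {ι : Type u} [TopologicalSpace ι] [DiscreteTopology ι] {K : Type v}
    [TopologicalSpace K] (h : HasTEmb (OnePoint ι) K) : ∃ z : K, Fan ι z := by
  obtain ⟨e, he, φ, hφ, hext⟩ := h
  let E : OnePoint ι ≃ₜ range e := he.toHomeomorph
  have hE : ∀ x, (E x : K) = e x := fun x => rfl
  let χ : ι → Cp (range e) := fun i =>
    ⟨fun y => if E.symm y = (i : OnePoint ι) then (1 : ℝ) else 0,
      (continuous_single i).comp E.symm.continuous⟩
  let o : Cp (range e) := ⟨fun _ => 0, continuous_const⟩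
  have hlim : Tendsto χ cofinite (𝓝 o) := by
    rw [tendsto_subtype_rng, tendsto_pi_nhds]
    intro y
    refine tendsto_const_nhds.congr' ?_
    have hfin : {i : ι | E.symm y = (i : OnePoint ι)}.Finite := by
      refine Set.Subsingleton.finite ?_
      intro i hi j hj
      exact OnePoint.coe_injective ((hi : E.symm y = (i : OnePoint ι)).symm.trans hj)
    filter_upwards [hfin.compl_mem_cofinite] with i hi
    have : ¬ E.symm y = (i : OnePoint ι) := hi
    show (0 : ℝ) = if E.symm y = (i : OnePoint ι) then (1 : ℝ) else 0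
    rw [if_neg this]
  have hval : ∀ y : K, Tendsto (fun i => (φ (χ i)).1 y) cofinite (𝓝 ((φ o).1 y)) := by
    intro y
    have h1 : Tendsto (fun i => φ (χ i)) cofinite (𝓝 (φ o)) := (hφ.tendsto o).comp hlim
    have h2 := (continuous_subtype_val (p := fun f : K → ℝ => Continuous f)).tendsto (φ o)
    exact (tendsto_pi_nhds.mp (h2.comp h1)) y
  refine ⟨e OnePoint.infty, fun i => e i, fun i => {y | 1 / 2 < |(φ (χ i)).1 y - (φ o).1 y|},
    ?_, ?_, ?_, ?_⟩
  · intro i
    exact isOpen_lt continuous_const (continuous_abs.comp ((φ (χ i)).2.sub (φ o).2))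
  · intro i
    show 1 / 2 < |(φ (χ i)).1 (e i) - (φ o).1 (e i)|
    have h1 := hext (χ i) (E i)
    have h2 := hext o (E i)
    rw [hE] at h1 h2
    rw [h1, h2]
    have h3 : (χ i).1 (E i) = 1 := by
      show (if E.symm (E i) = (i : OnePoint ι) then (1 : ℝ) else 0) = 1
      rw [if_pos (by simp)]
    have h4 : o.1 (E i) = 0 := rfl
    rw [h3, h4]
    norm_num
  · intro y
    have h1 := (hval y).eventually (Metric.ball_mem_nhds _ (by norm_num : (0 : ℝ) < 1 / 2))
    rw [eventually_cofinite] at h1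
    refine h1.subset ?_
    intro i hi hi'
    have h2 : 1 / 2 < |(φ (χ i)).1 y - (φ o).1 y| := hi
    rw [Real.dist_eq] at hi'
    exact absurd hi' (not_lt.mpr h2.le)
  · intro G hG hz
    have h1 : Tendsto (fun i : ι => e (i : OnePoint ι)) (coclosedCompact ι)
        (𝓝 (e OnePoint.infty)) :=
      (he.continuous.tendsto _).comp OnePoint.tendsto_coe_infty
    rw [coclosedCompact_eq_cocompact, cocompact_eq_cofinite] at h1
    have h2 := h1.eventually (hG.mem_nhds hz)
    rw [eventually_cofinite] at h2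
    exact h2

/-- The main theorem. -/
theorem main (ι : Type u) [TopologicalSpace ι] [DiscreteTopology ι]
    (K : Type u) [TopologicalSpace K] [CompactSpace K] [T2Space K]
    (hom : ∀ x y : K, ∃ h : K ≃ₜ K, h x = y)
    (h : HasTEmb (OnePoint ι) K)
    (B : Set (Set K)) (hBo : ∀ V ∈ B, IsOpen V) (hBn : ∀ V ∈ B, V.Nonempty)
    (hB : ∀ V : Set K, IsOpen V → V.Nonempty → ∃ W ∈ B, W ⊆ V)
    (c : Cardinal.{u}) (hr : c.IsRegular) (hc : ℵ₀ < c) (hcι : c ≤ #ι) : c < #B := by
  by_contra hcon
  rw [not_lt] at hcon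
  obtain ⟨z, hz⟩ := fan_of_hasTEmb h
  have hK : Nonempty K := ⟨z⟩
  have hT : Nonempty c.ord.ToType := by
    rw [← Cardinal.mk_ne_zero_iff, mk_ord_toType]
    exact (lt_of_le_of_lt zero_le hc).ne'
  have hcT : #c.ord.ToType ≤ #ι := by rw [mk_ord_toType]; exact hcι
  obtain ⟨j⟩ := (Cardinal.le_def _ _).mp hcT
  have hBT : #B ≤ #c.ord.ToType := by rw [mk_ord_toType]; exact hcon
  obtain ⟨k⟩ := (Cardinal.le_def _ _).mp hBT
  have hBne : Nonempty B := by
    obtain ⟨W, hW, -⟩ := hB univ isOpen_univ univ_nonempty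
    exact ⟨⟨W, hW⟩⟩
  obtain ⟨O, hO⟩ : ∃ O : c.ord.ToType → B, Function.Surjective O :=
    ⟨Function.invFun k, Function.invFun_surjective k.injective⟩
  refine no_fans (T := c.ord.ToType) (exists_lt_of_countable hr hc) (exists_closure hr hc) hom
    (fun t => (O t : Set K)) (fun t => hBo _ (O t).2) (fun t => hBn _ (O t).2) ?_ ?_
  · intro V hV hVn
    obtain ⟨W, hW, hWV⟩ := hB V hV hVn
    obtain ⟨t, ht⟩ := hO ⟨W, hW⟩
    exact ⟨t, by rw [ht]; exact hWV⟩
  · intro w
    obtain ⟨g, hg⟩ := hom z w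
    exact (hz.map g hg).comap j

end Pool.Agent.Helper90.TE
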